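import Pool.Agent.H76.LUD.Targets

/-!
# DEG: simple degree facts
-/

set_option autoImplicit false

namespace Pool.Agent.H61.LUD

open Pool.Agent.H69 Pool.Agent.H81.TM Pool.Agent.H76.LUD

theorem rc_dl {O : Set (ℕ →. ℕ)} (n : ℕ) : Rc O (dl n) := by
  refine Rc.of_primrec ?_
  exact (Primrec.eq (α := ℕ)).decide.comp Primrec.id (Primrec.const n)

theorem pf_DEG : T_DEG := by
  refine ⟨?_, ?_, ?_, ?_⟩
  · intro c0 d x m
    rw [leT_iff]
    exact rc_left (rc_left (rc_left (rc_self _)))
  · intro X n
    constructor
    · rw [leT_iff]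
      exact rc_join (rc_left (rc_self (join X (fun _ => false)))) (rc_dl n)
    · rw [leT_iff]
      exact rc_join (rc_left (rc_self (join X (dl n)))) (Rc.const false)
  · intro c x n h
    constructor
    · rw [leT_iff]
      exact rc_join (rc_join (leT_iff.1 h) (rc_self x)) (rc_dl n)
    · rw [leT_iff]
      exact rc_right (rc_left (rc_self (join (join c x) (dl n))))
  · intro c d x h
    rw [leT_iff] at h ⊢
    exact rc_left h

end Pool.Agent.H61.LUD
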